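import Pool.Agent.J4H38.GS.Stm5
import Pool.Agent.H401R2.Stir

/-! Piece (GAMP) of helper38's project GS5: Stirling for `conj (AA (conj b + it)) * AA (b + it)`. -/

set_option autoImplicit false

open Complex Filter Topology
open scoped ComplexConjugate

namespace Pool.Agent.J4H12.GS

lemma log_add_it (b : ℂ) (t : ℝ) (ht : 0 < t) (hb : ‖b‖ ≤ t / 2) :
    ‖log (b + t * I) - ((Real.log t : ℂ) + Real.pi / 2 * I - I * b / t)‖ ≤ (‖b‖ / t) ^ 2 := by
  have ht' : (t : ℂ) ≠ 0 := by exact_mod_cast ht.ne'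
  obtain ⟨q, hq⟩ : ∃ q : ℂ, q = -(I * b / t) := ⟨_, rfl⟩
  have hqn : ‖q‖ = ‖b‖ / t := by
    rw [hq, norm_neg, norm_div, norm_mul, norm_I, one_mul, Complex.norm_real, Real.norm_eq_abs, abs_of_pos ht]
  have hq2 : ‖q‖ ≤ 1 / 2 := by
    rw [hqn, div_le_iff₀ ht]
    linarith
  have hre : 0 < (1 + q).re := by
    have h1 := (abs_le.1 (abs_re_le_norm q)).1
    rw [add_re, one_re]
    linarith
  have h1q : (1 + q) ≠ 0 := by intro h; rw [h] at hre; simp at hre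
  have harg : |arg (1 + q)| < Real.pi / 2 := abs_arg_lt_pi_div_two_iff.2 (Or.inl hre)
  obtain ⟨L, hL⟩ : ∃ L : ℂ, L = (Real.log t : ℂ) + Real.pi / 2 * I + log (1 + q) := ⟨_, rfl⟩
  have hLim : L.im = Real.pi / 2 + arg (1 + q) := by
    rw [hL]
    simp [log_im]
  have hexp : exp L = b + t * I := by
    rw [hL, exp_add, exp_add, exp_log h1q, exp_pi_div_two_mul_I, ← ofReal_exp, Real.exp_log ht, hq]
    field_simp
    linear_combination (-b) * I_sq
  have hlog : log (b + t * I) = L := by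
    rw [← hexp, log_exp]
    · rw [hLim]; have := (abs_lt.1 harg).1; linarith [Real.pi_pos]
    · rw [hLim]; have := (abs_lt.1 harg).2; linarith [Real.pi_pos]
  have hmain := norm_log_one_add_sub_self_le (z := q) (by linarith)
  have e : log (b + t * I) - ((Real.log t : ℂ) + Real.pi / 2 * I - I * b / t) = log (1 + q) - q := by
    rw [hlog, hL, hq]; ring
  rw [e, ← hqn]
  refine hmain.trans ?_
  have h2 : (1 - ‖q‖)⁻¹ ≤ 2 := by
    rw [inv_le_comm₀ (by linarith) (by norm_num)]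
    linarith
  have h3 : 0 ≤ ‖q‖ ^ 2 := by positivity
  nlinarith

open Pool.Agent.H401R2 in
lemma gamma_eq (w : ℂ) : Gamma w = ((√(2 * Real.pi) : ℝ) : ℂ) * (sA w / ((√(2 * Real.pi) : ℝ) : ℂ)) *
    exp ((w - 1 / 2) * log w - w) := by
  have hs : ((√(2 * Real.pi) : ℝ) : ℂ) ≠ 0 := by
    have : √(2 * Real.pi) ≠ 0 := by positivity
    exact_mod_cast this
  unfold sA
  rw [exp_neg]
  have := exp_ne_zero ((w - 1 / 2) * log w - w)
  field_simp

open Pool.Agent.J4H38.GS in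
lemma prod_eq (b : ℂ) (t : ℝ) (ht : 0 < t) (ρ1 ρ2 S1 S2 : ℂ)
    (h1 : log (b + t * I) = (Real.log t : ℂ) + Real.pi / 2 * I - I * b / t + ρ1)
    (h2 : conj (log (conj b + t * I)) = (Real.log t : ℂ) - Real.pi / 2 * I + I * b / t + ρ2)
    (g1 : Gamma (b + t * I) = ((√(2 * Real.pi) : ℝ) : ℂ) * S1 * exp ((b + t * I - 1 / 2) * log (b + t * I) - (b + t * I)))
    (g2 : conj (Gamma (conj b + t * I)) = ((√(2 * Real.pi) : ℝ) : ℂ) * S2 *
      exp ((b - t * I - 1 / 2) * conj (log (conj b + t * I)) - (b - t * I))) :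
    conj (AA (conj b + t * I)) * AA (b + t * I) = ((t / (2 * Real.pi) : ℝ) : ℂ) ^ (2 * b - 1) *
      (exp ((b + t * I - 1 / 2) * ρ1 + (b - t * I - 1 / 2) * ρ2) * S1 * S2) := by
  have ht' : (t : ℂ) ≠ 0 := by exact_mod_cast ht.ne'
  have h2pi : (0 : ℝ) < 2 * Real.pi := by positivity
  have hpi0 : (2 * Real.pi : ℂ) ≠ 0 := by exact_mod_cast h2pi.ne'
  obtain ⟨l, hl⟩ : ∃ l : ℝ, l = Real.log (2 * Real.pi) := ⟨_, rfl⟩
  have hl' : log (2 * Real.pi : ℂ) = (l : ℂ) := by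
    rw [hl, ofReal_log h2pi.le]; push_cast; rfl
  have hcp : ∀ w : ℂ, (2 * Real.pi : ℂ) ^ w = exp (l * w) := by
    intro w
    rw [cpow_def_of_ne_zero hpi0, hl']
  have hsq : ((√(2 * Real.pi) : ℝ) : ℂ) * ((√(2 * Real.pi) : ℝ) : ℂ) = exp l := by
    rw [← ofReal_mul, Real.mul_self_sqrt h2pi.le, ← ofReal_exp, hl, Real.exp_log h2pi]
  have hr : ((t / (2 * Real.pi) : ℝ) : ℂ) ^ (2 * b - 1) = exp (((Real.log t : ℂ) - l) * (2 * b - 1)) := by
    have h0 : ((t / (2 * Real.pi) : ℝ) : ℂ) ≠ 0 := by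
      have : t / (2 * Real.pi) ≠ 0 := by positivity
      exact_mod_cast this
    rw [cpow_def_of_ne_zero h0, ← ofReal_log (by positivity), Real.log_div ht.ne' h2pi.ne', hl]
    push_cast
    rfl
  have a2 : conj (AA (conj b + t * I)) = exp (l * (-(b - t * I))) * conj (Gamma (conj b + t * I)) *
      exp (Real.pi * I * (b - t * I) / 2) := by
    unfold AA
    rw [hcp, map_mul, map_mul, ← exp_conj, ← exp_conj]
    congr 2
    · congr 1
      simp only [map_mul, map_neg, map_add, map_sub, map_div₀, conj_ofReal, conj_I, Complex.conj_conj, map_ofNat, map_one]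
      ring
    · congr 1
      simp only [map_mul, map_neg, map_add, map_sub, map_div₀, conj_ofReal, conj_I, Complex.conj_conj, map_ofNat, map_one]
      ring
  have a1 : AA (b + t * I) = exp (l * (-(b + t * I))) * Gamma (b + t * I) * exp (-(Real.pi * I * (b + t * I) / 2)) := by
    unfold AA
    rw [hcp]
  rw [a2, a1, g1, g2, h1, h2, hr]
  obtain ⟨c, hc⟩ : ∃ c : ℂ, c = b / t := ⟨_, rfl⟩
  have hc' : (t : ℂ) * c = b := by rw [hc]; field_simp
  have e1 : I * b / t = I * c := by rw [hc, mul_div_assoc]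
  rw [e1]
  have key : exp (l * (-(b - t * I))) * exp ((b - t * I - 1 / 2) * ((Real.log t : ℂ) - Real.pi / 2 * I + I * c + ρ2) - (b - t * I)) *
      exp (Real.pi * I * (b - t * I) / 2) * (exp (l * (-(b + t * I))) *
      exp ((b + t * I - 1 / 2) * ((Real.log t : ℂ) + Real.pi / 2 * I - I * c + ρ1) - (b + t * I)) *
      exp (-(Real.pi * I * (b + t * I) / 2))) * exp l =
      exp (((Real.log t : ℂ) - l) * (2 * b - 1)) * exp ((b + t * I - 1 / 2) * ρ1 + (b - t * I - 1 / 2) * ρ2) := by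
    simp only [← exp_add]
    congr 1
    linear_combination (-2 * I ^ 2) * hc' + (-2 * b) * I_sq
  calc _ = (exp (l * (-(b - t * I))) * exp ((b - t * I - 1 / 2) * ((Real.log t : ℂ) - Real.pi / 2 * I + I * c + ρ2) - (b - t * I)) *
      exp (Real.pi * I * (b - t * I) / 2) * (exp (l * (-(b + t * I))) *
      exp ((b + t * I - 1 / 2) * ((Real.log t : ℂ) + Real.pi / 2 * I - I * c + ρ1) - (b + t * I)) *
      exp (-(Real.pi * I * (b + t * I) / 2))) * (((√(2 * Real.pi) : ℝ) : ℂ) * ((√(2 * Real.pi) : ℝ) : ℂ))) * (S1 * S2) := by ring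
    _ = _ := by rw [hsq, key]; ring

lemma three (a c d : ℂ) (A u : ℝ) (hA : 0 ≤ A) (hu : 0 ≤ u) (hu1 : u ≤ 1) (ha : ‖a - 1‖ ≤ A * u) (hc : ‖c - 1‖ ≤ u)
    (hd : ‖d - 1‖ ≤ u) : ‖a * c * d - 1‖ ≤ (4 * A + 3) * u := by
  have e : a * c * d - 1 = (a - 1) * c * d + (c - 1) * d + (d - 1) := by ring
  have hc' : ‖c‖ ≤ 1 + u := by
    calc ‖c‖ = ‖(c - 1) + 1‖ := by ring_nf
      _ ≤ ‖c - 1‖ + ‖(1 : ℂ)‖ := norm_add_le _ _
      _ ≤ u + 1 := by rw [norm_one]; linarith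
      _ = 1 + u := by ring
  have hd' : ‖d‖ ≤ 1 + u := by
    calc ‖d‖ = ‖(d - 1) + 1‖ := by ring_nf
      _ ≤ ‖d - 1‖ + ‖(1 : ℂ)‖ := norm_add_le _ _
      _ ≤ u + 1 := by rw [norm_one]; linarith
      _ = 1 + u := by ring
  rw [e]
  calc _ ≤ ‖(a - 1) * c * d‖ + ‖(c - 1) * d‖ + ‖d - 1‖ := norm_add₃_le
    _ = ‖a - 1‖ * ‖c‖ * ‖d‖ + ‖c - 1‖ * ‖d‖ + ‖d - 1‖ := by simp only [norm_mul]
    _ ≤ (A * u) * 2 * 2 + u * 2 + u := by
        have hc2 : ‖c‖ ≤ 2 := by linarith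
        have hd2 : ‖d‖ ≤ 2 := by linarith
        gcongr
    _ = _ := by ring

open Pool.Agent.J4H38.GS Pool.Agent.H401R2 in
/-- piece (GAMP) -/
theorem t_GAMP : S_GAMP := by
  intro x₀ x₁ Y hx0 hx1
  obtain ⟨M, hM⟩ : ∃ M : ℝ, M = x₁ + |Y| + 1 := ⟨_, rfl⟩
  have hM1 : 1 ≤ M := by rw [hM]; have := abs_nonneg Y; linarith
  refine ⟨2 * Real.pi * (4 * (8 * M ^ 2) + 3), 4 * M ^ 2 + 2 * M, by positivity, by nlinarith, ?_⟩
  intro b t hb0 hb1 hbY ht
  have hbre : 0 < b.re := hx0.trans_le hb0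
  have hY : |b.im| ≤ |Y| := hbY.trans (le_abs_self Y)
  have hbM : ‖b‖ + 1 / 2 ≤ M := by
    have h1 := Complex.norm_le_abs_re_add_abs_im b
    rw [abs_of_pos hbre] at h1
    rw [hM]; linarith
  have htM : 2 * M ≤ t := by nlinarith [sq_nonneg M]
  have htM2 : 4 * M ^ 2 ≤ t := by nlinarith
  have ht0 : 0 < t := by linarith
  have ht1 : 1 ≤ t := by linarith
  have hcn : ‖conj b‖ = ‖b‖ := RCLike.norm_conj b
  have hb2 : ‖b‖ ≤ t / 2 := by linarith
  have him : M - 1 ≥ |b.im| := by rw [hM]; linarith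
  have himb := abs_le.1 him.le
  obtain ⟨ρ1, hρ1⟩ : ∃ ρ1, ρ1 = log (b + t * I) - ((Real.log t : ℂ) + Real.pi / 2 * I - I * b / t) := ⟨_, rfl⟩
  obtain ⟨r2, hr2⟩ : ∃ r2, r2 = log (conj b + t * I) - ((Real.log t : ℂ) + Real.pi / 2 * I - I * conj b / t) := ⟨_, rfl⟩
  have n1 : ‖ρ1‖ ≤ (‖b‖ / t) ^ 2 := by rw [hρ1]; exact log_add_it b t ht0 hb2
  have n2 : ‖conj r2‖ ≤ (‖b‖ / t) ^ 2 := by
    rw [RCLike.norm_conj, hr2, ← hcn]; exact log_add_it (conj b) t ht0 (by rw [hcn]; exact hb2)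
  have w1re : 0 < (b + t * I).re := by simpa using hbre
  have w2re : 0 < (conj b + t * I).re := by simpa using hbre
  have w1im : (b + t * I).im = b.im + t := by simp
  have w2im : (conj b + t * I).im = -b.im + t := by simp
  have s1 := stirling w1re (by rw [w1im]; linarith [himb.1])
  have s2 := stirling w2re (by rw [w2im]; linarith [himb.2])
  obtain ⟨S1, hS1⟩ : ∃ S1, S1 = sA (b + t * I) / ((√(2 * Real.pi) : ℝ) : ℂ) := ⟨_, rfl⟩
  obtain ⟨S2, hS2⟩ : ∃ S2, S2 = sA (conj b + t * I) / ((√(2 * Real.pi) : ℝ) : ℂ) := ⟨_, rfl⟩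
  have g1 := gamma_eq (b + t * I)
  have g2 := gamma_eq (conj b + t * I)
  rw [← hS1] at s1 g1
  rw [← hS2] at s2 g2
  have g2' : conj (Gamma (conj b + t * I)) = ((√(2 * Real.pi) : ℝ) : ℂ) * conj S2 *
      exp ((b - t * I - 1 / 2) * conj (log (conj b + t * I)) - (b - t * I)) := by
    rw [g2, map_mul, map_mul, ← exp_conj, conj_ofReal]
    congr 2
    simp only [map_mul, map_neg, map_add, map_sub, map_div₀, conj_ofReal, conj_I, Complex.conj_conj, map_ofNat, map_one]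
    ring
  have h1 : log (b + t * I) = (Real.log t : ℂ) + Real.pi / 2 * I - I * b / t + ρ1 := by rw [hρ1]; ring
  have h2 : conj (log (conj b + t * I)) = (Real.log t : ℂ) - Real.pi / 2 * I + I * b / t + conj r2 := by
    rw [hr2]
    simp only [map_mul, map_neg, map_add, map_sub, map_div₀, conj_ofReal, conj_I, Complex.conj_conj, map_ofNat, map_one]
    ring
  rw [prod_eq b t ht0 ρ1 (conj r2) S1 (conj S2) h1 h2 g1 g2']
  have hu0 : 0 ≤ 1 / t := by positivity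
  have hu1 : 1 / t ≤ 1 := by rw [div_le_one ht0]; exact ht1
  have hs1 : ‖S1 - 1‖ ≤ 1 / t := by
    refine s1.trans ?_
    rw [w1im, div_le_div_iff₀ (by linarith [himb.1]) ht0]
    nlinarith [Real.pi_le_four, Real.pi_pos, himb.1]
  have hs2 : ‖conj S2 - 1‖ ≤ 1 / t := by
    have : conj S2 - 1 = conj (S2 - 1) := by simp
    rw [this, RCLike.norm_conj]
    refine s2.trans ?_
    rw [w2im, div_le_div_iff₀ (by linarith [himb.2]) ht0]
    nlinarith [Real.pi_le_four, Real.pi_pos, himb.2]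
  obtain ⟨R, hR⟩ : ∃ R, R = (b + t * I - 1 / 2) * ρ1 + (b - t * I - 1 / 2) * conj r2 := ⟨_, rfl⟩
  have hRn : ‖R‖ ≤ 4 * M ^ 2 * (1 / t) := by
    have hq : (‖b‖ / t) ^ 2 ≤ (M / t) ^ 2 := by
      have : ‖b‖ ≤ M := by linarith
      gcongr
    have k1 : ‖b + t * I - 1 / 2‖ ≤ 2 * t := by
      calc ‖b + t * I - 1 / 2‖ ≤ ‖b + t * I‖ + ‖(1 / 2 : ℂ)‖ := norm_sub_le _ _
        _ ≤ ‖b‖ + ‖(t : ℂ) * I‖ + ‖(1 / 2 : ℂ)‖ := by gcongr; exact norm_add_le _ _
        _ = ‖b‖ + t + 1 / 2 := by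
          rw [norm_mul, norm_I, mul_one, Complex.norm_real, Real.norm_eq_abs, abs_of_pos ht0]; norm_num
        _ ≤ 2 * t := by linarith
    have k2 : ‖b - t * I - 1 / 2‖ ≤ 2 * t := by
      calc ‖b - t * I - 1 / 2‖ ≤ ‖b - t * I‖ + ‖(1 / 2 : ℂ)‖ := norm_sub_le _ _
        _ ≤ ‖b‖ + ‖(t : ℂ) * I‖ + ‖(1 / 2 : ℂ)‖ := by gcongr; exact norm_sub_le _ _
        _ = ‖b‖ + t + 1 / 2 := by
          rw [norm_mul, norm_I, mul_one, Complex.norm_real, Real.norm_eq_abs, abs_of_pos ht0]; norm_num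
        _ ≤ 2 * t := by linarith
    rw [hR]
    calc _ ≤ ‖b + t * I - 1 / 2‖ * ‖ρ1‖ + ‖b - t * I - 1 / 2‖ * ‖conj r2‖ := by
          refine (norm_add_le _ _).trans ?_
          rw [norm_mul, norm_mul]
      _ ≤ (2 * t) * (M / t) ^ 2 + (2 * t) * (M / t) ^ 2 := by
          gcongr
          · exact n1.trans hq
          · exact n2.trans hq
      _ = 4 * M ^ 2 * (1 / t) := by field_simp; ring
  have hR1 : ‖R‖ ≤ 1 := by
    refine hRn.trans ?_
    rw [mul_one_div, div_le_one ht0]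
    exact htM2
  have hE : ‖exp R - 1‖ ≤ (8 * M ^ 2) * (1 / t) := by
    refine (norm_exp_sub_one_le hR1).trans ?_
    linarith
  rw [← hR]
  have h3 := three (exp R) S1 (conj S2) (8 * M ^ 2) (1 / t) (by positivity) hu0 hu1 hE hs1 hs2
  have hT0 : (0 : ℝ) < t / (2 * Real.pi) := by positivity
  have hT : ‖((t / (2 * Real.pi) : ℝ) : ℂ) ^ (2 * b - 1)‖ ≤ t ^ (2 * b.re - 1) * (2 * Real.pi) := by
    rw [norm_cpow_eq_rpow_re_of_pos hT0]
    have : (2 * b - 1).re = 2 * b.re - 1 := by simp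
    rw [this, Real.div_rpow ht0.le (by positivity), div_eq_mul_inv, ← Real.rpow_neg (by positivity)]
    gcongr
    calc (2 * Real.pi) ^ (-(2 * b.re - 1)) ≤ (2 * Real.pi) ^ (1 : ℝ) := by
          apply Real.rpow_le_rpow_of_exponent_le
          · nlinarith [Real.pi_gt_three]
          · linarith
      _ = 2 * Real.pi := Real.rpow_one _
  calc _ = ‖((t / (2 * Real.pi) : ℝ) : ℂ) ^ (2 * b - 1) * (exp R * S1 * conj S2 - 1)‖ := by
        congr 1; ring
    _ = ‖((t / (2 * Real.pi) : ℝ) : ℂ) ^ (2 * b - 1)‖ * ‖exp R * S1 * conj S2 - 1‖ := norm_mul _ _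
    _ ≤ (t ^ (2 * b.re - 1) * (2 * Real.pi)) * ((4 * (8 * M ^ 2) + 3) * (1 / t)) := by gcongr
    _ = 2 * Real.pi * (4 * (8 * M ^ 2) + 3) * (t ^ (2 * b.re - 1) / t) := by ring
    _ = _ := by
        congr 1
        rw [← Real.rpow_sub_one ht0.ne']
        congr 1
        ring

end Pool.Agent.J4H12.GS

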