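import Pool.Agent.J4H38.GS.Stm5
import Pool.Agent.H153R4.Pl

/-! Piece (PARS) of helper38's project GS5: the polarised Plancherel formula for `G(τ+z/2+it) G(τ+z/2-it)`. -/

set_option autoImplicit false

open MeasureTheory Set Filter Polynomial Topology FourierTransform
open scoped ComplexConjugate ENNReal

namespace Pool.Agent.J4H12.GS

/-- polarised Plancherel -/
lemma plancherel2 (f g : ℝ → ℂ) (f1 : Integrable f) (f2 : MemLp f 2) (g1 : Integrable g) (g2 : MemLp g 2) :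
    Integrable (fun ξ => conj (𝓕 g ξ) * 𝓕 f ξ) ∧ ∫ ξ, conj (𝓕 g ξ) * 𝓕 f ξ = ∫ x, conj (g x) * f x := by
  have hf := Pool.Agent.H153R4.fourier_ae_eq f f1 f2
  have hg := Pool.Agent.H153R4.fourier_ae_eq g g1 g2
  have mf : MemLp (𝓕 f) 2 := (memLp_congr_ae hf).mp (Lp.memLp _)
  have mg : MemLp (𝓕 g) 2 := (memLp_congr_ae hg).mp (Lp.memLp _)
  have e := Lp.inner_fourier_eq (g2.toLp g) (f2.toLp f)
  rw [L2.inner_def, L2.inner_def] at e
  refine ⟨?_, ?_⟩
  · exact mg.star.integrable_mul mf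
  · have e1 : ∫ ξ, conj (𝓕 g ξ) * 𝓕 f ξ = ∫ a, inner ℂ ((𝓕 (g2.toLp g) : Lp ℂ 2 (volume : Measure ℝ)) a)
        ((𝓕 (f2.toLp f) : Lp ℂ 2 (volume : Measure ℝ)) a) := by
      apply integral_congr_ae
      filter_upwards [hf, hg] with x hx hy
      rw [hx, hy, RCLike.inner_apply']
    have e2 : ∫ x, conj (g x) * f x = ∫ a, inner ℂ ((g2.toLp g : Lp ℂ 2 (volume : Measure ℝ)) a)
        ((f2.toLp f : Lp ℂ 2 (volume : Measure ℝ)) a) := by
      apply integral_congr_ae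
      filter_upwards [f2.coeFn_toLp, g2.coeFn_toLp] with x hx hy
      rw [hx, hy, RCLike.inner_apply']
    rw [e1, e2, e]

lemma cint (g : ℝ → ℝ) (hm : Measurable g) (s : ℂ) (h : IntegrableOn (fun u => g u * Real.exp (-s.re * u)) (Ioi 0)) :
    IntegrableOn (fun u : ℝ => (g u : ℂ) * Complex.exp (-s * u)) (Ioi 0) := by
  refine Integrable.mono' (Integrable.norm h) (by fun_prop) (Eventually.of_forall fun u => ?_)
  rw [norm_mul, Complex.norm_exp]
  simp

lemma transform_diff (g : ℝ → ℝ) (hm : Measurable g) (τ : ℝ)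
    (hI : ∀ σ, τ < σ → IntegrableOn (fun u => g u * Real.exp (-σ * u)) (Ioi 0)) :
    DifferentiableOn ℂ (fun s : ℂ => ∫ u in Ioi (0 : ℝ), (g u : ℂ) * Complex.exp (-s * u)) {s | τ < s.re} := by
  intro s hs
  have hs' : τ < s.re := hs
  obtain ⟨ρ, hρ⟩ : ∃ ρ, ρ = (s.re - τ) / 4 := ⟨_, rfl⟩
  have hρ0 : 0 < ρ := by rw [hρ]; linarith
  have key := hasDerivAt_integral_of_dominated_loc_of_deriv_le (μ := volume.restrict (Ioi (0 : ℝ))) (𝕜 := ℂ)
    (F := fun (s : ℂ) (u : ℝ) => (g u : ℂ) * Complex.exp (-s * u))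
    (F' := fun (s : ℂ) (u : ℝ) => (g u : ℂ) * (Complex.exp (-s * u) * (-(u : ℂ)))) (x₀ := s) (s := Metric.ball s ρ)
    (bound := fun u => ρ⁻¹ * ‖g u * Real.exp (-(s.re - 2 * ρ) * u)‖) (Metric.ball_mem_nhds s hρ0) ?_ ?_ ?_ ?_ ?_ ?_
  · exact key.2.differentiableAt.differentiableWithinAt
  · refine Eventually.of_forall fun w => ?_
    fun_prop
  · exact cint g hm s (hI s.re hs')
  · fun_prop
  · refine (ae_restrict_iff' measurableSet_Ioi).2 (Eventually.of_forall fun u hu w hw => ?_)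
    have hu0 : (0 : ℝ) < u := hu
    have hre : s.re - ρ ≤ w.re := by
      have h1 : |(w - s).re| ≤ ‖w - s‖ := Complex.abs_re_le_norm _
      have h2 : ‖w - s‖ < ρ := by simpa [dist_eq_norm] using hw
      rw [Complex.sub_re] at h1
      have := abs_le.1 (h1.trans h2.le)
      linarith [this.1]
    rw [norm_mul, norm_mul, Complex.norm_exp, norm_neg, norm_mul]
    simp only [Complex.norm_real, Complex.mul_re, Complex.neg_re, Complex.neg_im, Complex.ofReal_re, Complex.ofReal_im,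
      mul_zero, sub_zero, Real.norm_eq_abs, abs_of_pos hu0, Real.abs_exp]
    have h3 : Real.exp (-w.re * u) ≤ Real.exp (-(s.re - 2 * ρ) * u) * Real.exp (-(ρ * u)) := by
      rw [← Real.exp_add, Real.exp_le_exp]
      nlinarith
    have h4 : u * Real.exp (-(ρ * u)) ≤ ρ⁻¹ := by
      have h5 : ρ * u ≤ Real.exp (ρ * u) := by linarith [Real.add_one_le_exp (ρ * u)]
      rw [Real.exp_neg, ← div_eq_mul_inv, div_le_iff₀ (Real.exp_pos _)]
      rw [inv_mul_eq_div, le_div_iff₀ hρ0]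
      linarith
    calc |g u| * (Real.exp (-w.re * u) * u)
        ≤ |g u| * ((Real.exp (-(s.re - 2 * ρ) * u) * Real.exp (-(ρ * u))) * u) := by
          gcongr
      _ = (|g u| * Real.exp (-(s.re - 2 * ρ) * u)) * (u * Real.exp (-(ρ * u))) := by ring
      _ ≤ (|g u| * Real.exp (-(s.re - 2 * ρ) * u)) * ρ⁻¹ := by gcongr
      _ = _ := by ring
  · exact ((hI (s.re - 2 * ρ) (by rw [hρ]; linarith)).norm.const_mul _)
  · refine Eventually.of_forall fun u w _ => ?_
    have h1 : HasDerivAt (fun w : ℂ => -w * (u : ℂ)) (-(u : ℂ)) w := by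
      simpa using ((hasDerivAt_id w).neg.mul_const (u : ℂ))
    exact (h1.cexp.const_mul (g u : ℂ))

lemma sq_int (g : ℝ → ℝ) (hm : Measurable g) (σ : ℝ)
    (hL : ∫⁻ u in Ioi (0 : ℝ), ‖g u‖ₑ ^ 2 * ENNReal.ofReal (Real.exp (-2 * σ * u)) < ⊤) :
    IntegrableOn (fun u => g u ^ 2 * Real.exp (-2 * σ * u)) (Ioi 0) := by
  refine ⟨by fun_prop, ?_⟩
  rw [hasFiniteIntegral_iff_enorm]
  refine lt_of_le_of_lt (lintegral_mono fun u => ?_) hL
  rw [enorm_mul, enorm_pow, Real.enorm_of_nonneg (Real.exp_pos _).le]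

lemma one_int (g : ℝ → ℝ) (hm : Measurable g) (τ : ℝ)
    (hL : ∀ σ : ℝ, τ < σ → ∫⁻ u in Ioi (0 : ℝ), ‖g u‖ₑ ^ 2 * ENNReal.ofReal (Real.exp (-2 * σ * u)) < ⊤)
    (σ : ℝ) (hσ : τ < σ) : IntegrableOn (fun u => g u * Real.exp (-σ * u)) (Ioi 0) := by
  obtain ⟨ρ, hρ⟩ : ∃ ρ, ρ = (σ - τ) / 2 := ⟨_, rfl⟩
  have hρ0 : 0 < ρ := by rw [hρ]; linarith
  have h1 := sq_int g hm (σ - ρ) (hL _ (by rw [hρ]; linarith))
  have h2 : IntegrableOn (fun u => Real.exp (-(2 * ρ) * u)) (Ioi 0) := exp_neg_integrableOn_Ioi 0 (by positivity)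
  refine Integrable.mono' (Integrable.add h1 h2) (by fun_prop) (Eventually.of_forall fun u => ?_)
  simp only [Pi.add_apply]
  rw [norm_mul, Real.norm_eq_abs, Real.norm_eq_abs, Real.abs_exp]
  have e1 : Real.exp (-σ * u) = Real.exp (-(σ - ρ) * u) * Real.exp (-ρ * u) := by
    rw [← Real.exp_add]; ring_nf
  have e2 : Real.exp (-2 * (σ - ρ) * u) = Real.exp (-(σ - ρ) * u) ^ 2 := by
    rw [← Real.exp_nat_mul]; ring_nf
  have e3 : Real.exp (-(2 * ρ) * u) = Real.exp (-ρ * u) ^ 2 := by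
    rw [← Real.exp_nat_mul]; ring_nf
  rw [e1, e2, e3, ← sq_abs (g u)]
  nlinarith [sq_nonneg (|g u| * Real.exp (-(σ - ρ) * u) - Real.exp (-ρ * u)), sq_nonneg (|g u| * Real.exp (-(σ - ρ) * u)),
    sq_nonneg (Real.exp (-ρ * u)), abs_nonneg (g u), Real.exp_pos (-ρ * u), Real.exp_pos (-(σ - ρ) * u)]

lemma transform_eq (g : ℝ → ℝ) (G : ℂ → ℂ) (τ : ℝ) (hm : Measurable g) (hτ : 0 < τ)
    (hG : DifferentiableOn ℂ G {s : ℂ | 0 < s.re})
    (hT : ∀ s : ℂ, 3 / 2 < s.re → ∫ u in Ioi (0 : ℝ), (g u : ℂ) * Complex.exp (-s * u) = G s)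
    (hL : ∀ σ : ℝ, τ < σ → ∫⁻ u in Ioi (0 : ℝ), ‖g u‖ₑ ^ 2 * ENNReal.ofReal (Real.exp (-2 * σ * u)) < ⊤) (s : ℂ)
    (hs : τ < s.re) : ∫ u in Ioi (0 : ℝ), (g u : ℂ) * Complex.exp (-s * u) = G s := by
  have ho : IsOpen {s : ℂ | τ < s.re} := isOpen_lt continuous_const Complex.continuous_re
  have hc : IsPreconnected {s : ℂ | τ < s.re} := (convex_halfSpace_re_gt τ).isPreconnected
  have h1 := (transform_diff g hm τ (one_int g hm τ hL)).analyticOnNhd ho
  have h2 := (hG.mono (fun s (hs : τ < s.re) => (hτ.trans hs : (0 : ℝ) < s.re))).analyticOnNhd ho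
  have ho' : IsOpen {s : ℂ | 3 / 2 < s.re} := isOpen_lt continuous_const Complex.continuous_re
  have hz : ((max τ (3 / 2) + 1 : ℝ) : ℂ) ∈ {s : ℂ | τ < s.re} := by
    have := le_max_left τ (3 / 2)
    simp only [mem_ofPred_eq, Complex.ofReal_re]
    linarith
  have hz' : ((max τ (3 / 2) + 1 : ℝ) : ℂ) ∈ {s : ℂ | 3 / 2 < s.re} := by
    have := le_max_right τ (3 / 2)
    simp only [mem_ofPred_eq, Complex.ofReal_re]
    linarith
  exact h1.eqOn_of_preconnected_of_eventuallyEq h2 hc hz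
    (Filter.eventually_of_mem (ho'.mem_nhds hz') fun s hs => hT s hs) hs

/-- the function on the line whose Fourier transform is `G` on a vertical line -/
noncomputable def vv (g : ℝ → ℝ) (s : ℂ) : ℝ → ℂ := (Ioi (0 : ℝ)).indicator fun u => (g u : ℂ) * Complex.exp (-s * u)

lemma vv_int (g : ℝ → ℝ) (hm : Measurable g) (s : ℂ) (h : IntegrableOn (fun u => g u * Real.exp (-s.re * u)) (Ioi 0)) :
    Integrable (vv g s) := (integrable_indicator_iff measurableSet_Ioi).2 (cint g hm s h)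

lemma vv_mem (g : ℝ → ℝ) (hm : Measurable g) (s : ℂ)
    (h : ∫⁻ u in Ioi (0 : ℝ), ‖g u‖ₑ ^ 2 * ENNReal.ofReal (Real.exp (-2 * s.re * u)) < ⊤) : MemLp (vv g s) 2 := by
  have hme : AEStronglyMeasurable (vv g s) volume :=
    (by fun_prop : Measurable fun u : ℝ => (g u : ℂ) * Complex.exp (-s * u)).aestronglyMeasurable.indicator measurableSet_Ioi
  rw [memLp_two_iff_integrable_sq_norm hme]
  have h1 := sq_int g hm s.re h
  refine ((integrable_indicator_iff measurableSet_Ioi).2 h1).congr (Eventually.of_forall fun u => ?_)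
  by_cases hu : u ∈ Ioi (0 : ℝ)
  · simp only [vv, indicator_of_mem hu]
    rw [norm_mul, mul_pow, Complex.norm_exp, ← Real.exp_nat_mul]
    simp only [Complex.norm_real, Real.norm_eq_abs, sq_abs, Complex.mul_re, Complex.neg_re, Complex.ofReal_re, Complex.ofReal_im,
      mul_zero, sub_zero]
    congr 2
    push_cast
    ring
  · simp [vv, indicator_of_notMem hu]

lemma vv_fourier (g : ℝ → ℝ) (s : ℂ) (ξ : ℝ) :
    𝓕 (vv g s) ξ = ∫ u in Ioi (0 : ℝ), (g u : ℂ) * Complex.exp (-(s + (2 * Real.pi * ξ : ℝ) * Complex.I) * u) := by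
  rw [Real.fourier_real_eq_integral_exp_smul, ← integral_indicator measurableSet_Ioi]
  refine integral_congr_ae (Eventually.of_forall fun u => ?_)
  by_cases hu : u ∈ Ioi (0 : ℝ)
  · simp only [vv, indicator_of_mem hu, smul_eq_mul]
    rw [mul_left_comm, ← Complex.exp_add]
    congr 2
    push_cast
    ring
  · simp [vv, indicator_of_notMem hu]

open Pool.Agent.J4H38.GS in
/-- piece (PARS) -/
theorem t_PARS : S_PARS := by
  intro g G τ A B hm h0 hgr hτ hG hT hL z hz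
  have hx : τ < τ + z.re / 2 := by linarith
  have hT' := transform_eq g G τ hm hτ hG hT hL
  have hI1 : IntegrableOn (fun u => g u ^ 2 * Real.exp (-2 * τ * u) * Real.exp (-z.re * u)) (Ioi 0) := by
    refine (sq_int g hm (τ + z.re / 2) (hL _ hx)).congr (Eventually.of_forall fun u => ?_)
    simp only [mul_assoc, ← Real.exp_add]
    ring_nf
  refine ⟨hI1, ?_⟩
  obtain ⟨s, hs⟩ : ∃ s : ℂ, s = τ + z / 2 := ⟨_, rfl⟩
  obtain ⟨w, hw⟩ : ∃ w : ℂ, w = τ + conj z / 2 := ⟨_, rfl⟩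
  have hsre : s.re = τ + z.re / 2 := by rw [hs]; simp
  have hwre : w.re = τ + z.re / 2 := by rw [hw]; simp
  have hsL := hL s.re (by rw [hsre]; exact hx)
  have hwL := hL w.re (by rw [hwre]; exact hx)
  have hsI := one_int g hm τ hL s.re (by rw [hsre]; exact hx)
  have hwI := one_int g hm τ hL w.re (by rw [hwre]; exact hx)
  obtain ⟨p1, p2⟩ := plancherel2 (vv g s) (vv g w) (vv_int g hm s hsI) (vv_mem g hm s hsL) (vv_int g hm w hwI)
    (vv_mem g hm w hwL)
  have hconj : ∀ t : ℝ, conj (∫ u in Ioi (0 : ℝ), (g u : ℂ) * Complex.exp (-(w + (t : ℝ) * Complex.I) * u)) =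
      G (τ + z / 2 - t * Complex.I) := by
    intro t
    rw [← hT' _ (by simpa using hx), ← integral_conj]
    refine integral_congr_ae (Eventually.of_forall fun u => ?_)
    simp only [map_mul, Complex.conj_ofReal, ← Complex.exp_conj, hw, map_neg, map_add, Complex.conj_I, map_div₀, Complex.conj_conj,
      map_ofNat]
    congr 3
    ring
  have hpt : ∀ ξ : ℝ, conj (𝓕 (vv g w) ξ) * 𝓕 (vv g s) ξ =
      (fun t : ℝ => G (τ + z / 2 + t * Complex.I) * G (τ + z / 2 - t * Complex.I)) ((2 * Real.pi) * ξ) := by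
    intro ξ
    rw [vv_fourier, vv_fourier, hconj, hT' _ (by simp [hsre, hx])]
    simp only [hs]
    rw [mul_comm]
  have hpi : (2 * Real.pi : ℝ) ≠ 0 := by positivity
  have p1' : Integrable fun ξ : ℝ => (fun t : ℝ => G (τ + z / 2 + t * Complex.I) * G (τ + z / 2 - t * Complex.I)) ((2 * Real.pi) * ξ) :=
    p1.congr (Eventually.of_forall hpt)
  refine ⟨(integrable_comp_mul_left_iff _ hpi).1 p1', ?_⟩
  have e1 : ∫ x, conj (vv g w x) * vv g s x = ∫ u in Ioi (0 : ℝ), ((g u ^ 2 * Real.exp (-2 * τ * u) : ℝ) : ℂ) * Complex.exp (-z * u) := by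
    rw [← integral_indicator measurableSet_Ioi]
    refine integral_congr_ae (Eventually.of_forall fun u => ?_)
    by_cases hu : u ∈ Ioi (0 : ℝ)
    · simp only [vv, indicator_of_mem hu]
      simp only [map_mul, Complex.conj_ofReal, ← Complex.exp_conj, hw, hs, map_neg, map_add, map_div₀, Complex.conj_conj, map_ofNat]
      push_cast
      rw [mul_mul_mul_comm, ← Complex.exp_add, mul_assoc ((g u : ℂ) ^ 2), ← Complex.exp_add, ← sq]
      congr 2
      ring
    · simp [vv, indicator_of_notMem hu]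
  rw [← e1, ← p2]
  have e2 : ∫ ξ, conj (𝓕 (vv g w) ξ) * 𝓕 (vv g s) ξ =
      ∫ ξ : ℝ, (fun t : ℝ => G (τ + z / 2 + t * Complex.I) * G (τ + z / 2 - t * Complex.I)) ((2 * Real.pi) * ξ) :=
    integral_congr_ae (Eventually.of_forall hpt)
  rw [e2]
  have e3 := Measure.integral_comp_mul_left (fun t : ℝ => G (τ + z / 2 + t * Complex.I) * G (τ + z / 2 - t * Complex.I))
    (2 * Real.pi)
  refine e3.trans ?_
  rw [abs_of_pos (by positivity), Complex.real_smul]
  push_cast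
  rw [one_div]

end Pool.Agent.J4H12.GS

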